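import Pool.Agent.W541.DL.Stm

/-! Project DL, part PATHW: pathwise comparison of the statistics. -/

namespace Pool.Agent.W67.DL.PATHW

open Pool.Agent.W541.DL MeasureTheory ProbabilityTheory Filter Topology

theorem clE_mono (A : ℝ) {u v : EReal} (h : u ≤ v) : clE A u ≤ clE A v := by
  unfold clE
  refine EReal.toReal_le_toReal (max_le_max_left _ (min_le_min_left _ h)) ?_ ?_
  · intro h1
    have h2 : ((-A : ℝ) : EReal) ≤ ⊥ := by
      rw [← h1]; exact le_max_left _ _
    exact EReal.coe_ne_bot _ (le_bot_iff.1 h2)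
  · intro h1
    have h2 : (⊤ : EReal) ≤ max ((-A : ℝ) : EReal) ((A : ℝ) : EReal) := by
      rw [← h1]
      exact max_le_max_left _ (min_le_left _ _)
    rcases le_max_iff.1 h2 with h3 | h3
    · exact EReal.coe_ne_top _ (top_le_iff.1 h3)
    · exact EReal.coe_ne_top _ (top_le_iff.1 h3)

theorem clE_coe (A w : ℝ) : clE A (w : EReal) = cl A w := by
  unfold clE cl
  have hm : Monotone (fun x : ℝ => (x : EReal)) := EReal.coe_strictMono.monotone
  have h1 : min ((A : ℝ) : EReal) (w : EReal) = ((min A w : ℝ) : EReal) := (hm.map_min).symm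
  rw [h1]
  have h2 : max ((-A : ℝ) : EReal) ((min A w : ℝ) : EReal) = ((max (-A) (min A w) : ℝ) : EReal) :=
    (hm.map_max).symm
  rw [h2, EReal.toReal_coe]

theorem cl_scale (A k w : ℝ) (hk : 0 < k) : k * cl (A / k) w = cl A (k * w) := by
  unfold cl
  rw [mul_max_of_nonneg _ _ hk.le, mul_min_of_nonneg _ _ hk.le]
  have e1 : k * (-(A / k)) = -A := by field_simp
  have e2 : k * (A / k) = A := by field_simp
  rw [e1, e2]

theorem cl_add (A y d : ℝ) (hd : 0 ≤ d) : cl A (y + d) ≤ cl A y + d := by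
  unfold cl
  refine max_le ?_ ?_
  · have := le_max_left (-A) (min A y)
    linarith
  · have h1 : min A (y + d) ≤ min A y + d := by
      rcases le_total A y with h | h
      · rw [min_eq_left h]
        exact (min_le_left _ _).trans (by linarith)
      · rw [min_eq_right h]
        exact min_le_right _ _
    exact h1.trans (by
      have := le_max_right (-A) (min A y)
      linarith)

theorem cl_id (A y : ℝ) (h1 : -A ≤ y) (h2 : y ≤ A) : cl A y = y := by
  unfold cl
  rw [min_eq_right h2, max_eq_right h1]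

theorem main (hS : S_SHIFT) (_hE : S_STE) : S_PATHW := by
  intro h f A H c a b x0 t0 ρ m hcont hH hH0 hc ha hb hρ hA hm hcm hneg
  have hM : (1 : ℝ) ≤ (m : ℝ) := by exact_mod_cast hm
  have hM0 : (0 : ℝ) < (m : ℝ) := by linarith
  have hM3 : (0 : ℝ) < (m : ℝ) ^ 3 := by positivity
  have hM5 : (0 : ℝ) < (m : ℝ) ^ 5 := by positivity
  have hM6 : (0 : ℝ) < (m : ℝ) ^ 6 := by positivity
  have hM9 : (0 : ℝ) < (m : ℝ) ^ 9 := by positivity
  -- one cell
  have cell : ∀ j ∈ Finset.range (nJ ρ m), ∀ i ∈ Finset.range (nI ρ m),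
      ((m : ℝ) ^ 3 * clE (A / (m : ℝ) ^ 3) (valE (shiftVal h f) (x0 + 3 * i / m ^ 5)
          (t0 + j / m ^ 9) (x0 + 3 * i / m ^ 5) (t0 + (j + 1) / m ^ 9)) ≤
        cl A (m ^ 3 * cellv f x0 t0 m i j) + H / (m : ℝ) ^ 6) ∧
      (GoodCell f A H c a b x0 t0 m i j →
        (m : ℝ) ^ 3 * clE (A / (m : ℝ) ^ 3) (valE (shiftVal h f) (x0 + 3 * i / m ^ 5)
          (t0 + j / m ^ 9) (x0 + 3 * i / m ^ 5) (t0 + (j + 1) / m ^ 9)) ≤
        cl A (m ^ 3 * cellv f x0 t0 m i j) - c / (m : ℝ) ^ 6) := by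
    intro j hj i hi
    rw [Finset.mem_range] at hj hi
    set x : ℝ := x0 + 3 * i / m ^ 5 with hx
    set s : ℝ := t0 + j / m ^ 9 with hs
    set e : ℝ := 1 / (m : ℝ) ^ 9 with he
    have he0 : 0 < e := by positivity
    have hse : t0 + ((j : ℝ) + 1) / (m : ℝ) ^ 9 = s + e := by
      rw [hs, he]; ring
    have hj1 : ((j : ℝ) + 1) / (m : ℝ) ^ 9 ≤ ρ := by
      rw [div_le_iff₀ hM9]
      have h1 : ((nJ ρ m : ℕ) : ℝ) ≤ ρ * (m : ℝ) ^ 9 := Nat.floor_le (by positivity)
      have h2 : ((j + 1 : ℕ) : ℝ) ≤ (nJ ρ m : ℕ) := by exact_mod_cast hj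
      push_cast at h2
      linarith
    have hj0 : 0 ≤ (j : ℝ) / (m : ℝ) ^ 9 := by positivity
    have hi1 : 3 * (i : ℝ) / (m : ℝ) ^ 5 ≤ ρ := by
      rw [div_le_iff₀ hM5]
      have h1 : ((nI ρ m : ℕ) : ℝ) ≤ ρ * (m : ℝ) ^ 5 / 3 := Nat.floor_le (by positivity)
      have h2 : ((i : ℕ) : ℝ) ≤ (nI ρ m : ℕ) := by exact_mod_cast hi.le
      linarith
    have hi0 : 0 ≤ 3 * (i : ℝ) / (m : ℝ) ^ 5 := by positivity
    have hax : a < x := by rw [hx]; linarith
    have hxb : x < b := by rw [hx]; linarith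
    have hsneg : ∀ z r, a ≤ z → z ≤ b → s ≤ r → r ≤ s + e → h (z, r) ≤ -c := by
      intro z r h1 h2 h3 h4
      refine hneg z r h1 h2 ?_ ?_
      · have : t0 ≤ s := by rw [hs]; linarith
        linarith
      · have : s + e ≤ t0 + ρ := by rw [← hse]; linarith
        linarith
    obtain ⟨hs1, hs2⟩ := hS h H c f x s e a b he0 hcont hH hH0 hax hxb hsneg
    have hcv : cellv f x0 t0 m i j = val f x s x (s + e) := by
      unfold cellv
      rw [hse]
    have hvE : valE (shiftVal h f) x s x (s + e) =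
        shiftVal h f ⟨((x, s), (x, s + e)), by simpa using he0⟩ := by
      unfold valE
      rw [dif_pos (by linarith)]
    rw [hse, hvE, hcv]
    set v := val f x s x (s + e) with hv
    have hHe : (m : ℝ) ^ 3 * (v + H * e) = (m : ℝ) ^ 3 * v + H / (m : ℝ) ^ 6 := by
      rw [he]
      field_simp
    have hce : (m : ℝ) ^ 3 * (v - c * e) = (m : ℝ) ^ 3 * v - c / (m : ℝ) ^ 6 := by
      rw [he]
      field_simp
    constructor
    · have h1 := clE_mono (A / (m : ℝ) ^ 3) hs1
      rw [clE_coe] at h1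
      refine (mul_le_mul_of_nonneg_left h1 hM3.le).trans ?_
      rw [cl_scale A _ _ hM3, hHe]
      exact cl_add _ _ _ (by positivity)
    · rintro ⟨hg1, hg2⟩
      rw [hcv] at hg1
      have hcond : ∀ r, s < r → r < s + e → ∀ q : ℝ, (q = a ∨ q = b) →
          val f x s q r + val f q r x (s + e) + H * e ≤ val f x s x (s + e) - c * e := by
        intro r hr1 hr2 q hq
        have h3 := hg2 r hr1 (by rw [hse]; exact hr2) q hq
        rw [hcv, hse] at h3
        have e1 : H / (m : ℝ) ^ 9 = H * e := by rw [he]; ring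
        have e2 : c / (m : ℝ) ^ 9 = c * e := by rw [he]; ring
        rw [e1, e2] at h3
        exact h3
      have h1 := clE_mono (A / (m : ℝ) ^ 3) (hs2 hcond)
      rw [clE_coe] at h1
      refine (mul_le_mul_of_nonneg_left h1 hM3.le).trans ?_
      rw [cl_scale A _ _ hM3, hce]
      have hc6 : c / (m : ℝ) ^ 6 ≤ 1 := by
        rw [div_le_one hM6]; exact hcm
      have hc60 : 0 ≤ c / (m : ℝ) ^ 6 := by positivity
      obtain ⟨h4, h5⟩ := abs_le.1 hg1
      rw [cl_id A _ (by linarith) (by linarith), cl_id A _ (by linarith) (by linarith)]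
  -- summation
  unfold statE stat nBad
  rw [Finset.card_filter]
  have e1 : ∀ F : ℕ → ℕ → ℝ, ∑ j ∈ Finset.range (nJ ρ m), ∑ i ∈ Finset.range (nI ρ m), F j i =
      ∑ z ∈ Finset.range (nJ ρ m) ×ˢ Finset.range (nI ρ m), F z.1 z.2 := by
    intro F
    rw [Finset.sum_product]
  rw [e1, e1]
  have e2 : ((nJ ρ m * nI ρ m : ℕ) : ℝ) =
      ∑ z ∈ Finset.range (nJ ρ m) ×ˢ Finset.range (nI ρ m), (1 : ℝ) := by
    rw [Finset.sum_const, Finset.card_product, Finset.card_range, Finset.card_range]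
    simp
  rw [e2, Nat.cast_sum, Finset.mul_sum, Finset.mul_sum, ← Finset.sum_sub_distrib,
    Finset.sum_div, ← Finset.sum_add_distrib]
  refine Finset.sum_le_sum ?_
  rintro ⟨j, i⟩ hz
  rw [Finset.mem_product] at hz
  obtain ⟨h1, h2⟩ := cell j hz.1 i hz.2
  simp only
  by_cases hg : GoodCell f A H c a b x0 t0 m i j
  · rw [if_neg (not_not.2 hg)]
    refine (h2 hg).trans (le_of_eq ?_)
    push_cast
    ring
  · rw [if_pos hg]
    refine h1.trans (le_of_eq ?_)
    push_cast
    ring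

end Pool.Agent.W67.DL.PATHW
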